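import Pool.Agent.Results.MP_0707f5_ag.PencilsInWindows
import Pool.Agent.H36PA.Sieve

set_option autoImplicit false

/-!
# Pencils of flat bundles with nilpotent Higgs field: residue classes in which all members have many bad primes

Let `(E, ∇)` be a flat bundle on a curve `C` of any genus over a finitely generated field `K` of
characteristic zero, and let `Φ` be a nilpotent Higgs field (a linear map `E → E ⊗ Ω`), `Φ ^ e = 0`.
We consider the pencil `∇_q = ∇ + q Φ`, specialized to integers `q`, and prove a dichotomy: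

* either the generic member (`q` transcendental) has constant semisimplification: it has a
  filtration with graded pieces defined over `\bar K (C)`;
* or, for all primes `ℓ_1, …, ℓ_n`, all `σ > 0`, all `a = (a_j)`, `a_j ∈ ℤ_{ℓ_j}`, outside a set of small
  Hausdorff dimension and all large `T`, ALL integers `q` with `|q| ≤ T` and `|q - a_j|_{ℓ_j} ≤ T ^ (-σ)`
  for all `j` have nonvanishing `p`-curvatures for many primes `p ≤ T ^ ω`.

This is a `p`-adic form of the starting theorem `NilpotentPencils`, which bounds the number of the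
exceptional `q` up to `X`, and of `PencilsInWindows` (helper263), whose definitions are used.
-/

namespace Pool.Agent.Results.MP_0707f5_ag.PencilsInClasses

open Polynomial Module Finset Pool.Agent.W77.IM Pool.Agent.Results.MP_0707f5_ag.PencilsInWindows

universe u v w

/-- `B` is large in residue classes: let `α < β ≤ 1`, let `s = sExp α β`, let `ℓ_1, …, ℓ_n` be primes and `σ > 0`.
For all `a = (a_j)`, `a_j ∈ ℤ_{ℓ_j}`, outside a set of Hausdorff dimension at most `s / σ`, all `ω > s`, all `K`, all
large `T` and all integers `q` with `|q| ≤ T` and `|q - a_j|_{ℓ_j} ≤ T ^ (-σ)` for all `j` one has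
`B q (T ^ ω) > (1 - β) s log T + K`. -/
def LargeInClasses (B : ℤ → ℝ → ℝ) (α : ℝ) : Prop :=
  ∀ β : ℝ, α < β → β ≤ 1 →
  ∀ (n : ℕ) (ℓ : Fin n → ℕ) [∀ j, Fact (ℓ j).Prime] (σ : ℝ), 0 < σ →
  ∃ S : Set (∀ j : Fin n, ℤ_[ℓ j]), dimH S ≤ ENNReal.ofReal (sExp α β / σ) ∧
    ∀ a ∉ S, ∀ ω K : ℝ, sExp α β < ω →
      ∃ T₀ : ℝ, ∀ T ≥ T₀, ∀ q : ℤ, |(q : ℝ)| ≤ T → (∀ j, ‖(q : ℤ_[ℓ j]) - a j‖ ≤ T ^ (-σ)) →
        (1 - β) * sExp α β * Real.log T + K < B q (T ^ ω)

/-- Let `R` be a domain of characteristic zero, finitely generated over `ℤ`, let `F` be a field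
containing `R` with an `R`-linear derivation `δ` and `δ x = 1`, let `T ∈ R[x]` be nonzero, let `V`
be a finite dimensional vector space over `F` with a connection `∇` and a linear map `Φ` such that
`Φ ^ e = 0`, `e ≥ 2`, and let `E ⊆ V` be a finitely generated `R[x, 1/T]`-module which is stable
under `∇` and `Φ` and generates `V`.  Let `t ∈ F` be a constant which is transcendental over `R`,
and let `F₀` be a `δ`-stable subfield of `F` containing `R` and `x`, with algebraically closed field
of constants, such that the field `F` is generated by `F₀` and by constants.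

(The case to have in mind: `C` is a curve over `K = Frac R` with a function `x`, étale over the part
`T ≠ 0` of the line, `E` is a flat bundle with a nilpotent Higgs field on this part of `C`, spread
out over `Spec R`, `F₀ = \bar K (C)`, `F = F₀(t)` with `t` transcendental over `F₀`, and `V` is the
generic fibre of `E` tensored with `F`.)

Then (1) either the generic member `∇ + t Φ` of the pencil has a filtration by subconnections with
graded pieces defined over `F₀`, or the following holds. Let `1 - 1 / e < β ≤ 1` and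
`s = 1 / (1 + (β - (1 - 1 / e))² / ((1 - 1 / e) (1 / e)))` (for `β = 1` this is `1 - 1 / e`), let
`ℓ_1, …, ℓ_n` be primes and `σ > 0`. There is a set `S` of Hausdorff dimension at most `s / σ` such that
for each `a = (a_j)`, `a_j ∈ ℤ_{ℓ_j}`, outside `S`, each `ω > s`, each `K`, all large `T` and ALL integers `q`
with `|q| ≤ T` and `|q - a_j|_{ℓ_j} ≤ T ^ (-σ)` for all `j`, the sum of `log p / p` over the primes `p ≤ T ^ ω`
over which the `p`-curvatures of `∇ + q Φ` do not vanish is larger than `(1 - β) s log T + K`.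

(2) `s = 1 - 1 / e` for `β = 1`. -/
theorem result :
    (∀ {R : Type u} [CommRing R] [IsDomain R] [CharZero R] [Algebra.FiniteType ℤ R]
      {F : Type v} [Field F] [Algebra R F] (_ : Function.Injective (algebraMap R F))
      (δ : Derivation R F F) (x : F) (_ : δ x = 1) (T : R[X]) (_ : T ≠ 0)
      {V : Type w} [AddCommGroup V] [Module F V] [FiniteDimensional F V]
      (nabla : V →+ V) (_ : IsConnection δ nabla)
      (Φ : V →ₗ[F] V) {e : ℕ} (_ : 2 ≤ e) (_ : NilpotentOfOrder Φ e)
      (E : Submodule (CoordRing x T R) V) (_ : IsLattice nabla Φ E)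
      (t : F) (_ : δ t = 0) (_ : Transcendental R t)
      (F₀ : Subfield F) (_ : IsConstantForm δ x F₀),
      GradedOver (member nabla Φ t) F₀ ∨
        LargeInClasses (fun q Y => badSum (member nabla Φ (q : F)) E Y) (1 - 1 / e)) ∧
    (∀ α : ℝ, 0 < α → α < 1 → sExp α 1 = α) := by
  classical
  refine ⟨?_, PencilsInWindows.result.{0, 0, 0}.2.1⟩
  · intro R _ _ _ _ F _ _ hR δ x hx T hT V _ _ _ nabla hnabla Φ e he hΦe E ⟨hfg, hE, hΦ, hspan⟩ t
      hδt ht F₀ ⟨hF₀, hxF₀, hδF₀, hclosed, hgen⟩
    have hΦe' : ∀ v, (⇑Φ)^[e] v = 0 := hΦe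
    rcases Pool.Agent.TH924.PG.dich hR δ x hx T hT nabla hnabla Φ (by omega) hΦe' E hfg hE hΦ hspan
      t hδt ht F₀ hF₀ hxF₀ hδF₀ hclosed hgen with h | ⟨N₀, hN₀⟩
    · exact Or.inl h
    · right
      intro β hβ hβ1 n ℓ _ σ hσ
      have he0 : (0 : ℝ) < e := by
        have : 0 < e := by omega
        exact_mod_cast this
      have hα : (((e - 1 : ℕ) : ℝ)) / (e : ℝ) = 1 - 1 / (e : ℝ) := by
        rw [Nat.cast_sub (by omega)]
        field_simp
        simp
      set α : ℝ := 1 - 1 / (e : ℝ) with hαdef
      have h2e : (2 : ℝ) ≤ e := by exact_mod_cast he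
      have hα0 : 0 < α := by
        have : 1 / (e : ℝ) ≤ 1 / 2 := one_div_le_one_div_of_le (by norm_num) h2e
        rw [hαdef]; linarith
      have hα1 : α < 1 := lt_of_lt_of_le hβ hβ1
      have hm1 : 1 < 1 + (β - α) ^ 2 / (α * (1 - α)) := by
        have : 0 < (β - α) ^ 2 / (α * (1 - α)) := by
          apply div_pos
          · have : 0 < β - α := by linarith
            positivity
          · exact mul_pos hα0 (by linarith)
        linarith
      refine H36PA.classes_of_sieve ℓ
        (fun q Y => badSum (member nabla Φ (q : F)) E Y)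
        (fun q Y Z h => badSum_mono _ E h) hm1 hβ1 ?_ hσ
      intro θ' K hθ'
      obtain ⟨C, hC⟩ := Pool.Agent.TH924.PG.deviate2 (a := e - 1) (m := e) (by omega) (by omega)
        (e - 1) N₀ (β := β) (θ := θ') K (by rw [hα]; exact hβ) hβ1 (by rw [hα]; exact hθ')
      exact ⟨C, fun X hX => hC (fun p q => VanishingOver (member nabla Φ (q : F)) E p) hN₀ X hX⟩

end Pool.Agent.Results.MP_0707f5_ag.PencilsInClasses
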