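import Pool.Agent.TH924.PG.Dich
import Pool.Agent.TH924.PG.Asy
import Pool.Agent.V11263.PCu.Win

set_option autoImplicit false

/-!
# Pencils of flat bundles with nilpotent Higgs field: windows in which all members have many bad primes

Let `(E, ∇)` be a flat bundle on a curve `C` of any genus over a finitely generated field `K` of
characteristic zero, and let `Φ` be a nilpotent Higgs field (a linear map `E → E ⊗ Ω`), `Φ ^ e = 0`.
We consider the pencil `∇_q = ∇ + q Φ`, specialized to integers `q`, and prove a dichotomy: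

* either the generic member (`q` transcendental) has constant semisimplification: it has a
  filtration with graded pieces defined over `\bar K (C)`;
* or, for a given sequence `v`, for all real numbers `a > 0` outside a set of small Hausdorff
  dimension and all large `k`, ALL integers `q` in the window of radius `v_k ^ θ` around `± a v_k`
  have nonvanishing `p`-curvatures for many primes `p ≤ v_k ^ ω`.

This is a metric form of the starting theorem `NilpotentPencils`, which bounds the number of the
exceptional `q` up to `X`. There is no condition on `∇`, on its monodromy or on the relative position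
of `∇` and `Φ`.
-/

namespace Pool.Agent.Results.MP_0707f5_ag.PencilsInWindows

open Polynomial Module Finset Pool.Agent.W77.IM

universe u v w

/-- `∇` is a connection: `∇ (f v) = δ(f) v + f ∇ v`. -/
def IsConnection {R F V : Type*} [CommRing R] [Field F] [Algebra R F] [AddCommGroup V]
    [Module F V] (δ : Derivation R F F) (nabla : V →+ V) : Prop :=
  ∀ (f : F) (v : V), nabla (f • v) = δ f • v + f • nabla v

/-- `Φ ^ e = 0`. -/
def NilpotentOfOrder {F V : Type*} [Field F] [AddCommGroup V] [Module F V] (Φ : V →ₗ[F] V)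
    (e : ℕ) : Prop :=
  ∀ v : V, (⇑Φ)^[e] v = 0

/-- The member `∇ + c Φ` of a pencil. -/
def member {F V : Type*} [Field F] [AddCommGroup V] [Module F V] (nabla : V →+ V) (Φ : V →ₗ[F] V)
    (c : F) : V →+ V :=
  nabla + (c • Φ).toAddMonoidHom

/-- `∇ ^ p` maps the lattice `E` into `𝔪 E`. (With `A = R[x, 1/T]` and `∇ = ∇_{d/dx}`: if `𝔪` is a
closed point of `Spec R` over `p`, then the `p`-curvature vanishes at `𝔪`.) -/
def VanishingAt {R F V : Type*} [CommRing R] [Field F] [Algebra R F] [AddCommGroup V]
    [Module F V] {A : Subalgebra R F} (nabla : V →+ V) (E : Submodule A V) (p : ℕ)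
    (𝔪 : Ideal R) : Prop :=
  ∀ v ∈ E, nabla^[p] v ∈ 𝔪.map (algebraMap R A) • E

/-- `E` is a lattice for `∇` and `Φ`: it is finitely generated, stable under `∇` and `Φ`, and it spans
`V`. -/
structure IsLattice {R F V : Type*} [CommRing R] [Field F] [Algebra R F] [AddCommGroup V]
    [Module F V] {A : Subalgebra R F} (nabla : V →+ V) (Φ : V →ₗ[F] V) (E : Submodule A V) :
    Prop where
  fg : E.FG
  nabla_mem : ∀ v ∈ E, nabla v ∈ E
  phi_mem : ∀ v ∈ E, Φ v ∈ E
  span : Submodule.span F (E : Set V) = ⊤

/-- `F₀` is a `δ`-stable subfield of `F` containing `R` and `x`, with algebraically closed field of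
constants, such that the field `F` is generated by `F₀` and by constants. -/
structure IsConstantForm {R F : Type*} [CommRing R] [Field F] [Algebra R F]
    (δ : Derivation R F F) (x : F) (F₀ : Subfield F) : Prop where
  base_mem : ∀ a : R, algebraMap R F a ∈ F₀
  x_mem : x ∈ F₀
  stable : ∀ f ∈ F₀, δ f ∈ F₀
  closed : IsAlgClosed (constField δ F₀)
  gen : Subfield.closure ({c | δ c = 0} ∪ (F₀ : Set F)) = ⊤

/-- The `p`-curvatures of the lattice `E` vanish over `p`: for every irreducible component of the
fibre of `Spec R` over `p`, with generic point `𝔭`, there is a dense open subset (`g ≠ 0`) such that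
`∇ ^ p` maps `E` into `𝔪 E` for all closed points `𝔪` in it. (If `R` is a ring of integers in a
number field, with finitely many primes inverted: for all closed points `𝔪` over `p`.) -/
def VanishingOver {R F V : Type*} [CommRing R] [Field F] [Algebra R F] [AddCommGroup V]
    [Module F V] {A : Subalgebra R F} (nabla : V →+ V) (E : Submodule A V) (p : ℕ) : Prop :=
  ∀ 𝔭 ∈ (Ideal.span {(p : R)}).minimalPrimes, ∃ g : R, g ∉ 𝔭 ∧ ∀ 𝔪 : Ideal R, 𝔪.IsMaximal →
    𝔭 ≤ 𝔪 → g ∉ 𝔪 → VanishingAt nabla E p 𝔪

open Classical in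
/-- The sum of `log p / p` over the primes `p ≤ Y` over which the `p`-curvatures do not vanish. -/
noncomputable def badSum {R F V : Type*} [CommRing R] [Field F] [Algebra R F] [AddCommGroup V]
    [Module F V] {A : Subalgebra R F} (nabla : V →+ V) (E : Submodule A V) (Y : ℝ) : ℝ :=
  ∑ p ∈ Icc 1 ⌊Y⌋₊ with p.Prime ∧ ¬ VanishingOver nabla E p, Real.log p / p

/-- the exponent of convergence of the sequence `v` is at most `τ` -/
def ExpLe (v : ℕ → ℝ) (τ : ℝ) : Prop := ∀ t : ℝ, τ < t → Summable (fun n : ℕ => (v n) ^ (-t))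

/-- the exponent `1 / (1 + (β - α)² / (α (1 - α)))`; it is `α` for `β = 1` and smaller than one for
`β > α` -/
noncomputable def sExp (α β : ℝ) : ℝ := 1 / (1 + (β - α) ^ 2 / (α * (1 - α)))

/-- `B` is large on windows: let `α < β ≤ 1`, let `s = sExp α β`, let `v ≥ 1` be a sequence with
exponent of convergence at most `τ ≥ 0`, and let `θ < 1`.  For all `a > 0` outside a set of Hausdorff
dimension at most `(s + τ) / (1 - θ)`, all `ω > s`, all `K`, all but finitely many `k` and all
integers `q` with `| |q| - a v_k | ≤ v_k ^ θ` one has `B q (v_k ^ ω) > (1 - β) s log v_k + K`. -/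
def LargeOnWindows (B : ℤ → ℝ → ℝ) (α : ℝ) : Prop :=
  ∀ β : ℝ, α < β → β ≤ 1 →
  ∀ (v : ℕ → ℝ) (τ θ : ℝ), (∀ k, 1 ≤ v k) → 0 ≤ τ → ExpLe v τ → θ < 1 →
  ∃ S : Set ℝ, dimH S ≤ ENNReal.ofReal ((sExp α β + τ) / (1 - θ)) ∧
    ∀ a : ℝ, 0 < a → a ∉ S → ∀ ω K : ℝ, sExp α β < ω →
      ∃ k₀ : ℕ, ∀ k : ℕ, k₀ ≤ k → ∀ q : ℤ, |(|(q : ℝ)|) - a * v k| ≤ (v k) ^ θ →
        (1 - β) * sExp α β * Real.log (v k) + K < B q ((v k) ^ ω)

lemma badSum_mono {R F V : Type*} [CommRing R] [Field F] [Algebra R F] [AddCommGroup V]
    [Module F V] {A : Subalgebra R F} (nabla : V →+ V) (E : Submodule A V) {Y Z : ℝ} (h : Y ≤ Z) :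
    badSum nabla E Y ≤ badSum nabla E Z := by
  classical
  unfold badSum
  apply Finset.sum_le_sum_of_subset_of_nonneg
  · apply Finset.filter_subset_filter
    exact Finset.Icc_subset_Icc_right (Nat.floor_le_floor h)
  · intro p hp _
    have : 1 ≤ p := (Finset.mem_Icc.1 (Finset.mem_filter.1 hp).1).1
    have h1 : (1 : ℝ) ≤ p := by exact_mod_cast this
    exact div_nonneg (Real.log_nonneg h1) (by linarith)

/-- Let `R` be a domain of characteristic zero, finitely generated over `ℤ`, let `F` be a field
containing `R` with an `R`-linear derivation `δ` and `δ x = 1`, let `T ∈ R[x]` be nonzero, let `V`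
be a finite dimensional vector space over `F` with a connection `∇` and a linear map `Φ` such that
`Φ ^ e = 0`, `e ≥ 2`, and let `E ⊆ V` be a finitely generated `R[x, 1/T]`-module which is stable
under `∇` and `Φ` and generates `V`.  Let `t ∈ F` be a constant which is transcendental over `R`,
and let `F₀` be a `δ`-stable subfield of `F` containing `R` and `x`, with algebraically closed field
of constants, such that the field `F` is generated by `F₀` and by constants.

(The case to have in mind: `C` is a curve over `K = Frac R` with a function `x`, étale over the part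
`T ≠ 0` of the line, `E` is a flat bundle with a nilpotent Higgs field on this part of `C`, spread
out over `Spec R`, `F₀ = \bar K (C)`, `F = F₀(t)` with `t` transcendental over `F₀`, and `V` is the
generic fibre of `E` tensored with `F`.)

Then (1) either the generic member `∇ + t Φ` of the pencil has a filtration by subconnections with
graded pieces defined over `F₀`, or the following holds. Let `1 - 1 / e < β ≤ 1` and
`s = 1 / (1 + (β - (1 - 1 / e))² / ((1 - 1 / e) (1 / e)))` (for `β = 1` this is `1 - 1 / e`), let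
`v ≥ 1` be a sequence of exponent of convergence at most `τ ≥ 0` and `θ < 1`. There is a set `S` of
Hausdorff dimension at most `(s + τ) / (1 - θ)` such that for each `a > 0` outside `S`, each `ω > s`,
each `K`, all but finitely many `k` and ALL integers `q` with `| |q| - a v_k | ≤ v_k ^ θ`, the sum of
`log p / p` over the primes `p ≤ v_k ^ ω` over which the `p`-curvatures of `∇ + q Φ` do not vanish is
larger than `(1 - β) s log v_k + K`.

(2) `s = 1 - 1 / e` for `β = 1`; the exponent of convergence of `(k + 1) ^ c` is `1 / c`, that of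
`b ^ k` is `0`. -/
theorem result :
    (∀ {R : Type u} [CommRing R] [IsDomain R] [CharZero R] [Algebra.FiniteType ℤ R]
      {F : Type v} [Field F] [Algebra R F] (_ : Function.Injective (algebraMap R F))
      (δ : Derivation R F F) (x : F) (_ : δ x = 1) (T : R[X]) (_ : T ≠ 0)
      {V : Type w} [AddCommGroup V] [Module F V] [FiniteDimensional F V]
      (nabla : V →+ V) (_ : IsConnection δ nabla)
      (Φ : V →ₗ[F] V) {e : ℕ} (_ : 2 ≤ e) (_ : NilpotentOfOrder Φ e)
      (E : Submodule (CoordRing x T R) V) (_ : IsLattice nabla Φ E)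
      (t : F) (_ : δ t = 0) (_ : Transcendental R t)
      (F₀ : Subfield F) (_ : IsConstantForm δ x F₀),
      GradedOver (member nabla Φ t) F₀ ∨
        LargeOnWindows (fun q Y => badSum (member nabla Φ (q : F)) E Y) (1 - 1 / e)) ∧
    (∀ α : ℝ, 0 < α → α < 1 → sExp α 1 = α) ∧
    (∀ c : ℝ, 0 < c → ExpLe (fun n : ℕ => ((n : ℝ) + 1) ^ c) (1 / c)) ∧
    (∀ b : ℝ, 1 < b → ExpLe (fun n : ℕ => b ^ n) 0) := by
  classical
  refine ⟨?_, ?_, fun κ hκ => Pool.Agent.Y854.GM.expLe_pow κ hκ,
    fun b hb => Pool.Agent.Y854.GM.expLe_geom b hb⟩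
  · intro R _ _ _ _ F _ _ hR δ x hx T hT V _ _ _ nabla hnabla Φ e he hΦe E ⟨hfg, hE, hΦ, hspan⟩ t
      hδt ht F₀ ⟨hF₀, hxF₀, hδF₀, hclosed, hgen⟩
    have hΦe' : ∀ v, (⇑Φ)^[e] v = 0 := hΦe
    rcases Pool.Agent.TH924.PG.dich hR δ x hx T hT nabla hnabla Φ (by omega) hΦe' E hfg hE hΦ hspan
      t hδt ht F₀ hF₀ hxF₀ hδF₀ hclosed hgen with h | ⟨N₀, hN₀⟩
    · exact Or.inl h
    · right
      intro β hβ hβ1 v τ θ hv hτ hEx hθ1
      have he0 : (0 : ℝ) < e := by
        have : 0 < e := by omega
        exact_mod_cast this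
      have hα : (((e - 1 : ℕ) : ℝ)) / (e : ℝ) = 1 - 1 / (e : ℝ) := by
        rw [Nat.cast_sub (by omega)]
        field_simp
        simp
      set α : ℝ := 1 - 1 / (e : ℝ) with hαdef
      have h2e : (2 : ℝ) ≤ e := by exact_mod_cast he
      have hα0 : 0 < α := by
        have : 1 / (e : ℝ) ≤ 1 / 2 := one_div_le_one_div_of_le (by norm_num) h2e
        rw [hαdef]; linarith
      have hα1 : α < 1 := lt_of_lt_of_le hβ hβ1
      have hm1 : 1 < 1 + (β - α) ^ 2 / (α * (1 - α)) := by
        have : 0 < (β - α) ^ 2 / (α * (1 - α)) := by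
          apply div_pos
          · have : 0 < β - α := by linarith
            positivity
          · exact mul_pos hα0 (by linarith)
        linarith
      refine V11263.PCu.windows_of_sieve
        (fun q Y => badSum (member nabla Φ (q : F)) E Y)
        (fun q Y Z h => badSum_mono _ E h) hm1 hβ1 ?_ v τ θ hv hτ hEx hθ1
      intro θ' K hθ'
      obtain ⟨C, hC⟩ := Pool.Agent.TH924.PG.deviate2 (a := e - 1) (m := e) (by omega) (by omega)
        (e - 1) N₀ (β := β) (θ := θ') K (by rw [hα]; exact hβ) hβ1 (by rw [hα]; exact hθ')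
      exact ⟨C, fun X hX => hC (fun p q => VanishingOver (member nabla Φ (q : F)) E p) hN₀ X hX⟩
  · intro α h0 h1
    unfold sExp
    have h2 : (1 : ℝ) - α ≠ 0 := by linarith
    have e : 1 + (1 - α) ^ 2 / (α * (1 - α)) = 1 / α := by
      field_simp
      ring
    rw [e, one_div_one_div]

end Pool.Agent.Results.MP_0707f5_ag.PencilsInWindows
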